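import Mathlib

/-!
Analytic sets are null measurable for finite Borel measures (Lusin).
-/

set_option autoImplicit false

namespace Pool.Agent.H217R3.Beer

open Set TopologicalSpace Filter Topology MeasureTheory

/-- sets of sequences with the first `n` entries bounded -/
def En (k : ℕ → ℕ) (n : ℕ) : Set (ℕ → ℕ) := {x | ∀ i < n, x i ≤ k i}

theorem exists_bound {X : Type*} [MeasurableSpace X] (μ : Measure X) (f : (ℕ → ℕ) → X)
    (c : ENNReal) (hc : c < μ (range f)) :
    ∃ k : ℕ → ℕ, ∀ n, c < μ (f '' En k n) := by
  have step : ∀ (n : ℕ) (k : ℕ → ℕ), c < μ (f '' En k n) →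
      ∃ j : ℕ, c < μ (f '' En (Function.update k n j) (n + 1)) := by
    intro n k h
    have hU : f '' En k n = ⋃ j : ℕ, f '' (En k n ∩ {x | x n ≤ j}) := by
      rw [← image_iUnion]
      congr 1
      ext x
      simp only [mem_iUnion, mem_inter_iff, mem_ofPred_eq, exists_and_left]
      exact ⟨fun hx => ⟨hx, ⟨x n, le_rfl⟩⟩, fun hx => hx.1⟩
    have hmono : Monotone fun j : ℕ => f '' (En k n ∩ {x | x n ≤ j}) := by
      intro a b hab
      apply image_mono
      exact inter_subset_inter_right _ fun x (hx : x n ≤ a) => le_trans hx hab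
    rw [hU, hmono.measure_iUnion] at h
    obtain ⟨j, hj⟩ := lt_iSup_iff.1 h
    refine ⟨j, lt_of_lt_of_le hj (measure_mono (image_mono ?_))⟩
    rintro x ⟨hx1, hx2⟩ i hi
    rcases Nat.lt_succ_iff_lt_or_eq.1 hi with h' | h'
    · rw [Function.update_of_ne h'.ne]
      exact hx1 i h'
    · subst h'
      rw [Function.update_self]
      exact hx2
  have hinit : c < μ (f '' En (fun _ => 0) 0) := by
    have : En (fun _ => 0) 0 = univ := by
      ext x; simp [En]
    rw [this, image_univ]
    exact hc
  -- build the sequence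
  choose! J hJ using step
  let K : ℕ → (ℕ → ℕ) := fun n => Nat.rec (fun _ => 0) (fun m k => Function.update k m (J m k)) n
  have hK0 : K 0 = fun _ => 0 := rfl
  have hKs : ∀ n, K (n + 1) = Function.update (K n) n (J n (K n)) := fun n => rfl
  have hKc : ∀ n, c < μ (f '' En (K n) n) := by
    intro n
    induction n with
    | zero => exact hinit
    | succ n ih => rw [hKs]; exact hJ n (K n) ih
  have hst : ∀ n m, n < m → K m n = K (n + 1) n := by
    intro n m hnm
    induction m with
    | zero => omega
    | succ m ih =>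
      rcases Nat.lt_succ_iff_lt_or_eq.1 hnm with h' | h'
      · rw [hKs m, Function.update_of_ne h'.ne, ih h']
      · subst h'; rfl
  refine ⟨fun n => K (n + 1) n, fun n => ?_⟩
  have : En (fun n => K (n + 1) n) n = En (K n) n := by
    ext x
    simp only [En, mem_ofPred_eq]
    constructor
    · intro h i hi
      rw [hst i n hi]; exact h i hi
    · intro h i hi
      rw [← hst i n hi]; exact h i hi
  rw [this]
  exact hKc n

theorem exists_compact {X : Type*} [TopologicalSpace X] [T2Space X] [MeasurableSpace X] [BorelSpace X]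
    (μ : Measure X) [IsFiniteMeasure μ] (f : (ℕ → ℕ) → X) (hf : Continuous f)
    (c : ENNReal) (hc : c < μ (range f)) :
    ∃ K : Set X, IsCompact K ∧ K ⊆ range f ∧ c ≤ μ K := by
  obtain ⟨k, hk⟩ := exists_bound μ f c hc
  have hcomp : IsCompact {x : ℕ → ℕ | ∀ i, x i ≤ k i} := by
    have : {x : ℕ → ℕ | ∀ i, x i ≤ k i} = Set.pi univ fun i => Set.Iic (k i) := by
      ext x; simp [Pi.le_def]
    rw [this]
    exact isCompact_univ_pi fun i => (Set.finite_Iic (k i)).isCompact
  refine ⟨f '' {x | ∀ i, x i ≤ k i}, hcomp.image hf, image_subset_range _ _, ?_⟩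
  have hinter : f '' {x | ∀ i, x i ≤ k i} = ⋂ n, closure (f '' En k n) := by
    apply subset_antisymm
    · refine subset_iInter fun n => ?_
      have hKE : {x : ℕ → ℕ | ∀ i, x i ≤ k i} ⊆ En k n := by
        intro x hx i _
        exact hx i
      exact (image_mono hKE).trans subset_closure
    · intro y hy
      by_contra hcon
      obtain ⟨U, V, hU, hV, hKU, hyV, hUV⟩ :=
        (SeparatedNhds.of_isCompact_isCompact (hcomp.image hf) (isCompact_singleton (x := y))
          (by
            rw [disjoint_singleton_right]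
            exact hcon))
      have hyV' : y ∈ V := hyV rfl
      -- for each n a point in E_n with f x ∈ V
      have hex : ∀ n, ∃ x, x ∈ En k n ∧ f x ∈ V := by
        intro n
        obtain ⟨z, hzV, x, hx, hxz⟩ := mem_closure_iff.1 (mem_iInter.1 hy n) V hV hyV'
        exact ⟨x, hx, hxz ▸ hzV⟩
      choose x hx1 hx2 using hex
      let x' : ℕ → (ℕ → ℕ) := fun n i => if i < n then x n i else 0
      have hx' : ∀ n, x' n ∈ {x : ℕ → ℕ | ∀ i, x i ≤ k i} := by
        intro n i
        simp only [x']
        split_ifs with h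
        · exact hx1 n i h
        · exact Nat.zero_le _
      obtain ⟨z, hz, φ, hφ, hlim⟩ := hcomp.tendsto_subseq hx'
      have hlim2 : Tendsto (fun n => x (φ n)) atTop (𝓝 z) := by
        rw [tendsto_pi_nhds] at hlim ⊢
        intro i
        refine (hlim i).congr' ?_
        filter_upwards [eventually_gt_atTop i] with n hn
        have : i < φ n := lt_of_lt_of_le hn (hφ.id_le n)
        simp [x', this]
      have hfz : f z ∈ U := hKU ⟨z, hz, rfl⟩
      have := (hf.tendsto z).comp hlim2
      have hev := this.eventually (hU.mem_nhds hfz)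
      obtain ⟨n, hn⟩ := hev.exists
      exact (disjoint_left.1 hUV hn) (hx2 (φ n))
  rw [hinter]
  have hanti : Antitone fun n => closure (f '' En k n) := by
    intro a b hab
    apply closure_mono
    apply image_mono
    intro x hx i hi
    exact hx i (lt_of_lt_of_le hi hab)
  have ht := tendsto_measure_iInter_atTop (μ := μ) (s := fun n => closure (f '' En k n))
    (fun n => isClosed_closure.measurableSet.nullMeasurableSet) hanti
    ⟨0, measure_ne_top μ _⟩
  refine ge_of_tendsto' ht fun n => ?_
  exact (hk n).le.trans (measure_mono subset_closure)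

/-- analytic sets are null measurable -/
theorem analytic_null {X : Type*} [TopologicalSpace X] [T2Space X] [MeasurableSpace X] [BorelSpace X]
    (μ : Measure X) [IsFiniteMeasure μ] (A : Set X) (hA : AnalyticSet A) :
    NullMeasurableSet A μ := by
  rw [AnalyticSet] at hA
  rcases hA with rfl | ⟨f, hf, rfl⟩
  · exact MeasurableSet.empty.nullMeasurableSet
  rcases eq_or_ne (μ (range f)) 0 with h0 | h0
  · exact NullMeasurableSet.of_null h0
  have hseq : ∃ u : ℕ → ENNReal, StrictMono u ∧ (∀ n, u n < μ (range f)) ∧
      Tendsto u atTop (𝓝 (μ (range f))) := by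
    obtain ⟨u, hu1, hu2, hu3⟩ := exists_seq_strictMono_tendsto' (pos_iff_ne_zero.2 h0)
    exact ⟨u, hu1, fun n => (hu2 n).2, hu3⟩
  obtain ⟨u, -, hu2, hu3⟩ := hseq
  choose K hK1 hK2 hK3 using fun n => exists_compact μ f hf (u n) (hu2 n)
  have hsub : (⋃ n, K n) ⊆ range f := iUnion_subset hK2
  have hmeas : MeasurableSet (⋃ n, K n) := MeasurableSet.iUnion fun n => (hK1 n).measurableSet
  have hge : μ (range f) ≤ μ (⋃ n, K n) := by
    refine le_of_tendsto' hu3 fun n => ?_
    exact (hK3 n).trans (measure_mono (subset_iUnion _ n))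
  have hM : μ (toMeasurable μ (range f) \ ⋃ n, K n) = 0 := by
    rw [measure_sdiff (hsub.trans (subset_toMeasurable μ _)) hmeas.nullMeasurableSet
      (measure_ne_top μ _), measure_toMeasurable]
    exact tsub_eq_zero_of_le hge
  have hae : (⋃ n, K n) =ᵐ[μ] range f := by
    refine (LE.le.eventuallyLE hsub).antisymm ?_
    rw [ae_le_set]
    exact measure_mono_null (sdiff_subset_sdiff_left (subset_toMeasurable μ _)) hM
  exact hmeas.nullMeasurableSet.congr hae

end Pool.Agent.H217R3.Beer
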