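import Pool.Agent.H217R3.Beer.Geo

/-!
Two red and two blue points in non-alternating convex position give a triangle bounded by
red-blue segments.
-/

set_option autoImplicit false

namespace Pool.Agent.H217R3.Beer

open Set MeasureTheory

/-- `S` contains the boundary of a bounded convex set of area at least `t` -/
def Good (S : Set P2) (t : ℝ) : Prop :=
  ∃ C : Set P2, Convex ℝ C ∧ Bornology.IsBounded C ∧ ENNReal.ofReal t ≤ volume C ∧ frontier C ⊆ S

theorem good_tri (S : Set P2) (a b c : P2) (t : ℝ) (ht : 0 < t) (h : t ≤ D a b c)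
    (h1 : segment ℝ a b ⊆ S) (h2 : segment ℝ b c ⊆ S) (h3 : segment ℝ c a ⊆ S) :
    Good S (t / 4) := by
  have hD : 0 < D a b c := lt_of_lt_of_le ht h
  refine ⟨Tri a b c, tri_convex a b c, tri_bounded a b c hD, ?_, ?_⟩
  · refine le_trans (ENNReal.ofReal_le_ofReal ?_) (tri_volume a b c hD)
    linarith
  · refine (tri_frontier a b c hD).trans ?_
    exact union_subset (union_subset h1 h2) h3

theorem cross_pos (S : Set P2) (r r' b b' : P2) (η : ℝ) (hη : 0 < η)
    (h1 : η < D r r' b) (h2 : η < D r r' b') (h3 : η < D r b b') (h4 : η < D r' b b')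
    (s1 : segment ℝ r b ⊆ S) (s2 : segment ℝ r b' ⊆ S) (s3 : segment ℝ r' b ⊆ S)
    (s4 : segment ℝ r' b' ⊆ S) : Good S (η / 8) := by
  obtain ⟨α, hα⟩ : ∃ α, α = D r' b b' := ⟨_, rfl⟩
  obtain ⟨β, hβ⟩ : ∃ β, β = D r b b' := ⟨_, rfl⟩
  obtain ⟨γ, hγ⟩ : ∃ γ, γ = D r r' b' := ⟨_, rfl⟩
  obtain ⟨δ, hδ⟩ : ∃ δ, δ = D r r' b := ⟨_, rfl⟩
  have hT : α + γ = β + δ := by
    rw [hα, hβ, hγ, hδ]; simp only [D]; ring
  have hα0 : η < α := by rw [hα]; exact h4
  have hβ0 : η < β := by rw [hβ]; exact h3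
  have hγ0 : η < γ := by rw [hγ]; exact h2
  have hδ0 : η < δ := by rw [hδ]; exact h1
  have hT0 : 0 < α + γ := by linarith
  obtain ⟨p, hp⟩ : ∃ p : P2, p = (α / (α + γ)) • r + (γ / (α + γ)) • b := ⟨_, rfl⟩
  have hp' : p = (β / (α + γ)) • r' + (δ / (α + γ)) • b' := by
    rw [hp]
    have key : α • r + γ • b = β • r' + δ • b' := by
      rw [hα, hβ, hγ, hδ]
      ext
      · simp only [D, Prod.smul_fst, Prod.fst_add, smul_eq_mul]; ring
      · simp only [D, Prod.smul_snd, Prod.snd_add, smul_eq_mul]; ring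
    calc (α / (α + γ)) • r + (γ / (α + γ)) • b = (α + γ)⁻¹ • (α • r + γ • b) := by
          rw [smul_add, smul_smul, smul_smul, div_eq_inv_mul, div_eq_inv_mul]
      _ = (α + γ)⁻¹ • (β • r' + δ • b') := by rw [key]
      _ = _ := by rw [smul_add, smul_smul, smul_smul, div_eq_inv_mul, div_eq_inv_mul]
  have w1 : α / (α + γ) + γ / (α + γ) = 1 := by rw [← add_div, div_self hT0.ne']
  have w2 : β / (α + γ) + δ / (α + γ) = 1 := by rw [← add_div, ← hT, div_self hT0.ne']
  have hp_rb : p ∈ segment ℝ r b :=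
    ⟨_, _, div_nonneg (by linarith) hT0.le, div_nonneg (by linarith) hT0.le, w1, hp.symm⟩
  have hp_rb' : p ∈ segment ℝ r' b' :=
    ⟨_, _, div_nonneg (by linarith) hT0.le, div_nonneg (by linarith) hT0.le, w2, hp'.symm⟩
  have hconv1 := convex_segment (𝕜 := ℝ) r b
  have hconv2 := convex_segment (𝕜 := ℝ) r' b'
  have e1 : D p r' b = δ * α / (α + γ) := by
    have : D p r' b = D r' b p := by simp only [D]; ring
    rw [this, hp', D_aff _ _ _ _ _ _ w2]
    have e : D r' b r' = 0 := by simp only [D]; ring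
    rw [e, ← hα]; ring
  have e2 : D p b' r = γ * β / (α + γ) := by
    have : D p b' r = D b' r p := by simp only [D]; ring
    rw [this, hp, D_aff _ _ _ _ _ _ w1]
    have e : D b' r r = 0 := by simp only [D]; ring
    have e' : D b' r b = β := by rw [hβ]; simp only [D]; ring
    rw [e, e']; ring
  rcases le_total γ α with hc | hc
  · have hbig : η / 2 ≤ D p r' b := by
      rw [e1, le_div_iff₀ hT0]
      nlinarith
    have := good_tri S p r' b (η / 2) (by linarith) hbig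
      ((hconv2.segment_subset hp_rb' (left_mem_segment ℝ _ _)).trans s4) s3
      ((hconv1.segment_subset (right_mem_segment ℝ _ _) hp_rb).trans s1)
    have e : η / 2 / 4 = η / 8 := by ring
    rwa [e] at this
  · have hbig : η / 2 ≤ D p b' r := by
      rw [e2, le_div_iff₀ hT0]
      nlinarith
    have := good_tri S p b' r (η / 2) (by linarith) hbig
      ((hconv2.segment_subset hp_rb' (right_mem_segment ℝ _ _)).trans s4)
      (by rw [segment_symm]; exact s2)
      ((hconv1.segment_subset (left_mem_segment ℝ _ _) hp_rb).trans s1)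
    have e : η / 2 / 4 = η / 8 := by ring
    rwa [e] at this

/-- same strict sign, away from zero -/
def SS (η x y : ℝ) : Prop := (η < x ∧ η < y) ∨ (x < -η ∧ y < -η)

theorem D_swap (a b c : P2) : D b a c = - D a b c := by
  simp only [D]; ring

theorem D_swap' (a b c : P2) : D a c b = - D a b c := by
  simp only [D]; ring

theorem cross (S : Set P2) (r r' b b' : P2) (η : ℝ) (hη : 0 < η)
    (h1 : SS η (D r r' b) (D r r' b')) (h2 : SS η (D r b b') (D r' b b'))
    (s1 : segment ℝ r b ⊆ S) (s2 : segment ℝ r b' ⊆ S) (s3 : segment ℝ r' b ⊆ S)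
    (s4 : segment ℝ r' b' ⊆ S) : Good S (η / 8) := by
  rcases h1 with h1 | h1 <;> rcases h2 with h2 | h2
  · exact cross_pos S r r' b b' η hη h1.1 h1.2 h2.1 h2.2 s1 s2 s3 s4
  · -- swap b, b'
    refine cross_pos S r r' b' b η hη h1.2 h1.1 ?_ ?_ s2 s1 s4 s3
    · rw [D_swap']; linarith [h2.1]
    · rw [D_swap']; linarith [h2.2]
  · -- swap r, r'
    refine cross_pos S r' r b b' η hη ?_ ?_ h2.2 h2.1 s3 s4 s1 s2
    · rw [D_swap]; linarith [h1.1]
    · rw [D_swap]; linarith [h1.2]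
  · refine cross_pos S r' r b' b η hη ?_ ?_ ?_ ?_ s4 s3 s2 s1
    · rw [D_swap]; linarith [h1.2]
    · rw [D_swap]; linarith [h1.1]
    · rw [D_swap']; linarith [h2.2]
    · rw [D_swap']; linarith [h2.1]

theorem lt_abs_iff' (η x : ℝ) : η < |x| ↔ (η < x ∨ x < -η) := by
  rw [lt_abs]
  constructor
  · rintro (h | h)
    · exact Or.inl h
    · exact Or.inr (by linarith)
  · rintro (h | h)
    · exact Or.inl h
    · exact Or.inr (by linarith)

/-- three red points `x i`, two blue points `b`, `b'` -/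
theorem cross3 (S : Set P2) (x1 x2 x3 b b' : P2) (η : ℝ) (hη : 0 < η)
    (h12 : SS η (D x1 x2 b) (D x1 x2 b')) (h13 : SS η (D x1 x3 b) (D x1 x3 b'))
    (h23 : SS η (D x2 x3 b) (D x2 x3 b'))
    (k1 : η < |D x1 b b'|) (k2 : η < |D x2 b b'|) (k3 : η < |D x3 b b'|)
    (s1 : segment ℝ x1 b ⊆ S) (s1' : segment ℝ x1 b' ⊆ S)
    (s2 : segment ℝ x2 b ⊆ S) (s2' : segment ℝ x2 b' ⊆ S)
    (s3 : segment ℝ x3 b ⊆ S) (s3' : segment ℝ x3 b' ⊆ S) : Good S (η / 8) := by
  rw [lt_abs_iff'] at k1 k2 k3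
  rcases k1 with k1 | k1 <;> rcases k2 with k2 | k2
  · exact cross S x1 x2 b b' η hη h12 (Or.inl ⟨k1, k2⟩) s1 s1' s2 s2'
  · rcases k3 with k3 | k3
    · exact cross S x1 x3 b b' η hη h13 (Or.inl ⟨k1, k3⟩) s1 s1' s3 s3'
    · exact cross S x2 x3 b b' η hη h23 (Or.inr ⟨k2, k3⟩) s2 s2' s3 s3'
  · rcases k3 with k3 | k3
    · exact cross S x2 x3 b b' η hη h23 (Or.inl ⟨k2, k3⟩) s2 s2' s3 s3'
    · exact cross S x1 x3 b b' η hη h13 (Or.inr ⟨k1, k3⟩) s1 s1' s3 s3'
  · exact cross S x1 x2 b b' η hη h12 (Or.inr ⟨k1, k2⟩) s1 s1' s2 s2'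

end Pool.Agent.H217R3.Beer
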