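import Pool.Agent.H217R3.Beer.Meas

set_option autoImplicit false

namespace Pool.Agent.H217R3.Beer

open Set MeasureTheory

theorem seg_null (μ : Measure P2) [IsFiniteMeasure μ] (S : Set P2) (hS : MeasurableSet S) :
    NullMeasurableSet {p : P2 × P2 | segment ℝ p.1 p.2 ⊆ S} (μ.prod μ) := by
  have h1 : AnalyticSet {p : P2 × P2 | segment ℝ p.1 p.2 ⊆ S}ᶜ := by
    have h2 : {p : P2 × P2 | segment ℝ p.1 p.2 ⊆ S}ᶜ =
        Prod.fst '' {q : (P2 × P2) × ℝ | q.2 ∈ Icc (0:ℝ) 1 ∧
          ((1 - q.2) • q.1.1 + q.2 • q.1.2) ∈ Sᶜ} := by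
      ext p
      constructor
      · intro h
        have h' : ¬ (segment ℝ p.1 p.2 ⊆ S) := h
        rw [not_subset] at h'
        obtain ⟨x, hx, hxS⟩ := h'
        rw [segment_eq_image] at hx
        obtain ⟨t, ht, rfl⟩ := hx
        exact ⟨(p, t), ⟨ht, hxS⟩, rfl⟩
      · rintro ⟨⟨p', t⟩, ⟨ht, hxS⟩, rfl⟩ hsub
        apply hxS
        apply hsub
        rw [segment_eq_image]
        exact ⟨t, ht, rfl⟩
    rw [h2]
    apply MeasurableSet.analyticSet_image _ measurable_fst
    have c : Continuous fun q : (P2 × P2) × ℝ => ((1 - q.2) • q.1.1 + q.2 • q.1.2) := by fun_prop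
    exact (measurable_snd measurableSet_Icc).inter (c.measurable hS.compl)
  have h3 := analytic_null (μ.prod μ) _ h1
  exact (NullMeasurableSet.compl_iff).1 h3

theorem core :
    ∀ ε : ℝ, 0 < ε → ∃ δ : ℝ, 0 < δ ∧
      ∀ S : Set (ℝ × ℝ), MeasurableSet S → 0 < MeasureTheory.volume S →
        MeasureTheory.volume S < ⊤ →
        ENNReal.ofReal ε * (MeasureTheory.volume S) ^ 2 ≤
          MeasureTheory.volume {p : (ℝ × ℝ) × (ℝ × ℝ) | segment ℝ p.1 p.2 ⊆ S} →
        ∃ C : Set (ℝ × ℝ), Convex ℝ C ∧ Bornology.IsBounded C ∧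
          ENNReal.ofReal δ * MeasureTheory.volume S ≤ MeasureTheory.volume C ∧
          frontier C ⊆ S := by
  intro ε hε
  obtain ⟨e, he⟩ : ∃ e : ℝ, e = min ε 1 := ⟨_, rfl⟩
  have he0 : 0 < e := by rw [he]; exact lt_min hε one_pos
  have he1 : e ≤ 1 := by rw [he]; exact min_le_right _ _
  have heε : e ≤ ε := by rw [he]; exact min_le_left _ _
  refine ⟨e ^ 6 / 6144 / 8, by positivity, ?_⟩
  intro S hS hpos hfin hb
  obtain ⟨M, hM⟩ : ∃ M : ℝ, M = (MeasureTheory.volume S).toReal := ⟨_, rfl⟩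
  have hMpos : 0 < M := by rw [hM]; exact ENNReal.toReal_pos hpos.ne' hfin.ne
  have hvol : MeasureTheory.volume S = ENNReal.ofReal M := by
    rw [hM, ENNReal.ofReal_toReal hfin.ne]
  have hfact : Fact (MeasureTheory.volume S < ⊤) := ⟨hfin⟩
  obtain ⟨μ, hμ⟩ : ∃ μ : MeasureTheory.Measure P2, μ = MeasureTheory.volume.restrict S := ⟨_, rfl⟩
  have hμfin : MeasureTheory.IsFiniteMeasure μ := by rw [hμ]; infer_instance
  have hμle : μ ≤ MeasureTheory.volume := by rw [hμ]; exact MeasureTheory.Measure.restrict_le_self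
  have hμu : μ Set.univ = ENNReal.ofReal M := by
    rw [hμ, MeasureTheory.Measure.restrict_apply_univ, hvol]
  -- the graph
  have hnull := seg_null μ S hS
  obtain ⟨G, hGsub, hGm, hGae⟩ := hnull.exists_measurable_subset_ae_eq
  have hGvol : (μ.prod μ) G = MeasureTheory.volume {p : P2 × P2 | segment ℝ p.1 p.2 ⊆ S} := by
    rw [MeasureTheory.measure_congr hGae, hμ, MeasureTheory.Measure.prod_restrict,
      MeasureTheory.Measure.restrict_apply' (hS.prod hS), MeasureTheory.Measure.volume_eq_prod]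
    congr 1
    apply Set.inter_eq_left.2
    intro p hp
    exact ⟨hp (left_mem_segment ℝ _ _), hp (right_mem_segment ℝ _ _)⟩
  have hJ := jensen μ G hGm (ENNReal.ofReal (e * M)) ENNReal.ofReal_ne_top (by
    rw [hGvol, hμu]
    refine le_trans ?_ hb
    rw [hvol, ← ENNReal.ofReal_pow hMpos.le, ← ENNReal.ofReal_mul (by positivity),
      ← ENNReal.ofReal_mul hε.le]
    apply ENNReal.ofReal_le_ofReal
    nlinarith [mul_le_mul_of_nonneg_right heε (sq_nonneg M)])
  rw [hμu, ← ENNReal.ofReal_pow (by positivity), ← ENNReal.ofReal_mul (by positivity)] at hJ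
  have hgood := select μ hμle S G hGm (fun p hp => hGsub hp) (e ^ 6 / 6144 * M) (by positivity)
    (ENNReal.ofReal (e ^ 3 / 2 * M)) (by
      refine lt_of_lt_of_le ?_ hJ
      rw [hμu]
      have e3 : (3 : ENNReal) = ENNReal.ofReal 3 := by norm_num
      rw [e3, ← ENNReal.ofReal_mul (by positivity), ← ENNReal.ofReal_mul (by positivity),
        ← ENNReal.ofReal_mul (by positivity), ← ENNReal.ofReal_add (by positivity) (by positivity),
        ← ENNReal.ofReal_pow (by positivity), ← ENNReal.ofReal_mul (by positivity)]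
      rw [ENNReal.ofReal_lt_ofReal_iff (by positivity)]
      have h1 : e ^ 6 ≤ e ^ 3 := pow_le_pow_of_le_one he0.le he1 (by norm_num)
      have h2 : 0 < e ^ 3 * M ^ 4 := by positivity
      have h3 : e ^ 6 * M ^ 4 ≤ e ^ 3 * M ^ 4 := mul_le_mul_of_nonneg_right h1 (by positivity)
      nlinarith)
    (by
      rw [hμu]
      have e3 : (3 : ENNReal) = ENNReal.ofReal 3 := by norm_num
      have e2 : (2 : ENNReal) = ENNReal.ofReal 2 := by norm_num
      rw [e3, e2, ← ENNReal.ofReal_div_of_pos (by norm_num), ← ENNReal.ofReal_div_of_pos (by norm_num),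
        ← ENNReal.ofReal_div_of_pos (by norm_num), ← ENNReal.ofReal_mul (by positivity),
        ← ENNReal.ofReal_mul (by positivity), ← ENNReal.ofReal_mul (by positivity)]
      apply ENNReal.ofReal_le_ofReal
      apply le_of_eq
      ring)
  obtain ⟨C, h1, h2, h3, h4⟩ := hgood
  refine ⟨C, h1, h2, ?_, h4⟩
  refine le_trans ?_ h3
  rw [hvol, ← ENNReal.ofReal_mul (by positivity)]
  apply ENNReal.ofReal_le_ofReal
  apply le_of_eq
  ring

end Pool.Agent.H217R3.Beer
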