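import Mathlib

/-!
Geometry of triangles: boundary of a triangle, area of a triangle, and the crossing argument.
-/

set_option autoImplicit false

namespace Pool.Agent.H217R3.Beer

open Set MeasureTheory

abbrev P2 := ℝ × ℝ

/-- twice the signed area of the triangle `p q r` -/
def D (p q r : P2) : ℝ := (q.1 - p.1) * (r.2 - p.2) - (q.2 - p.2) * (r.1 - p.1)

/-- the triangle with vertices `a b c` (positively oriented) -/
def Tri (a b c : P2) : Set P2 := {q | 0 ≤ D a b q ∧ 0 ≤ D b c q ∧ 0 ≤ D c a q}

theorem D_aff (a b p q : P2) (s t : ℝ) (h : s + t = 1) :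
    D a b (s • p + t • q) = s * D a b p + t * D a b q := by
  have hs : s = 1 - t := by linarith
  subst hs
  simp only [D, Prod.fst_add, Prod.snd_add, Prod.smul_fst, Prod.smul_snd, smul_eq_mul]
  ring

theorem tri_convex (a b c : P2) : Convex ℝ (Tri a b c) := by
  intro p hp q hq s t hs ht hst
  refine ⟨?_, ?_, ?_⟩
  · rw [D_aff _ _ _ _ _ _ hst]
    exact add_nonneg (mul_nonneg hs hp.1) (mul_nonneg ht hq.1)
  · rw [D_aff _ _ _ _ _ _ hst]
    exact add_nonneg (mul_nonneg hs hp.2.1) (mul_nonneg ht hq.2.1)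
  · rw [D_aff _ _ _ _ _ _ hst]
    exact add_nonneg (mul_nonneg hs hp.2.2) (mul_nonneg ht hq.2.2)

theorem D_cont (a b : P2) : Continuous fun q : P2 => D a b q := by
  unfold D
  fun_prop

theorem tri_closed (a b c : P2) : IsClosed (Tri a b c) := by
  have h1 : Tri a b c = {q | 0 ≤ D a b q} ∩ ({q | 0 ≤ D b c q} ∩ {q | 0 ≤ D c a q}) := by
    ext q; simp [Tri]
  rw [h1]
  exact (isClosed_le continuous_const (D_cont a b)).inter
    ((isClosed_le continuous_const (D_cont b c)).inter (isClosed_le continuous_const (D_cont c a)))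

theorem D_sum (a b c q : P2) : D a b q + D b c q + D c a q = D a b c := by
  simp only [D]; ring

/-- barycentric coordinates -/
theorem bary (a b c q : P2) : D a b c • q = D b c q • a + D c a q • b + D a b q • c := by
  ext
  · simp only [D, Prod.smul_fst, Prod.fst_add, smul_eq_mul]; ring
  · simp only [D, Prod.smul_snd, Prod.snd_add, smul_eq_mul]; ring

theorem mem_segment_of (a b c q : P2) (h : 0 < D a b c) (hq : q ∈ Tri a b c) (h0 : D a b q = 0) :
    q ∈ segment ℝ a b := by
  have hb := bary a b c q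
  have hs := D_sum a b c q
  rw [h0] at hb hs
  rw [zero_smul, add_zero] at hb
  refine ⟨D b c q / D a b c, D c a q / D a b c, div_nonneg hq.2.1 h.le, div_nonneg hq.2.2 h.le, ?_, ?_⟩
  · rw [← add_div]
    rw [zero_add] at hs
    rw [hs, div_self h.ne']
  · calc (D b c q / D a b c) • a + (D c a q / D a b c) • b
        = (D a b c)⁻¹ • (D b c q • a + D c a q • b) := by
          rw [smul_add, smul_smul, smul_smul, div_eq_inv_mul, div_eq_inv_mul]
      _ = (D a b c)⁻¹ • (D a b c • q) := by rw [hb]
      _ = q := by rw [smul_smul, inv_mul_cancel₀ h.ne', one_smul]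

theorem D_rot (a b c : P2) : D b c a = D a b c := by
  simp only [D]; ring

theorem tri_rot (a b c : P2) : Tri b c a = Tri a b c := by
  ext q; simp only [Tri, mem_ofPred_eq]; tauto

theorem tri_frontier (a b c : P2) (h : 0 < D a b c) :
    frontier (Tri a b c) ⊆ segment ℝ a b ∪ segment ℝ b c ∪ segment ℝ c a := by
  intro q hq
  have hmem : q ∈ Tri a b c := (tri_closed a b c).frontier_subset hq
  have hnint : q ∉ interior (Tri a b c) := by
    have := hq.2
    exact this
  by_cases h1 : D a b q = 0
  · exact Or.inl (Or.inl (mem_segment_of a b c q h hmem h1))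
  by_cases h2 : D b c q = 0
  · exact Or.inl (Or.inr (mem_segment_of b c a q (by rw [D_rot]; exact h)
      (by rw [tri_rot]; exact hmem) h2))
  by_cases h3 : D c a q = 0
  · exact Or.inr (mem_segment_of c a b q (by rw [D_rot, D_rot]; exact h)
      (by rw [tri_rot, tri_rot]; exact hmem) h3)
  exfalso
  apply hnint
  have ho : IsOpen {q | 0 < D a b q ∧ 0 < D b c q ∧ 0 < D c a q} := by
    have h1 : {q | 0 < D a b q ∧ 0 < D b c q ∧ 0 < D c a q} =
        {q | 0 < D a b q} ∩ ({q | 0 < D b c q} ∩ {q | 0 < D c a q}) := by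
      ext q; simp
    rw [h1]
    exact (isOpen_lt continuous_const (D_cont a b)).inter
      ((isOpen_lt continuous_const (D_cont b c)).inter (isOpen_lt continuous_const (D_cont c a)))
  refine mem_interior.2 ⟨_, ?_, ho, ?_⟩
  · intro p hp
    exact ⟨hp.1.le, hp.2.1.le, hp.2.2.le⟩
  · exact ⟨lt_of_le_of_ne hmem.1 (Ne.symm h1), lt_of_le_of_ne hmem.2.1 (Ne.symm h2),
      lt_of_le_of_ne hmem.2.2 (Ne.symm h3)⟩

theorem tri_bounded (a b c : P2) (h : 0 < D a b c) : Bornology.IsBounded (Tri a b c) := by
  have hsub : Tri a b c ⊆ convexHull ℝ {a, b, c} := by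
    intro q hq
    have hb := bary a b c q
    have hs := D_sum a b c q
    have hq' : q = (D b c q / D a b c) • a + (D c a q / D a b c) • b + (D a b q / D a b c) • c := by
      symm
      calc (D b c q / D a b c) • a + (D c a q / D a b c) • b + (D a b q / D a b c) • c
          = (D a b c)⁻¹ • (D b c q • a + D c a q • b + D a b q • c) := by
            rw [smul_add, smul_add, smul_smul, smul_smul, smul_smul, div_eq_inv_mul, div_eq_inv_mul,
              div_eq_inv_mul]
        _ = (D a b c)⁻¹ • (D a b c • q) := by rw [hb]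
        _ = q := by rw [smul_smul, inv_mul_cancel₀ h.ne', one_smul]
    have hconv := (convex_convexHull ℝ ({a, b, c} : Set P2))
    have ha : a ∈ convexHull ℝ ({a, b, c} : Set P2) := subset_convexHull ℝ _ (by simp)
    have hb' : b ∈ convexHull ℝ ({a, b, c} : Set P2) := subset_convexHull ℝ _ (by simp)
    have hc : c ∈ convexHull ℝ ({a, b, c} : Set P2) := subset_convexHull ℝ _ (by simp)
    rw [hq']
    have := hconv.sum_mem (t := Finset.univ) (w := ![D b c q / D a b c, D c a q / D a b c, D a b q / D a b c])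
      (z := ![a, b, c]) ?_ ?_ ?_
    · simpa [Fin.sum_univ_three] using this
    · intro i _
      fin_cases i
      · exact div_nonneg hq.2.1 h.le
      · exact div_nonneg hq.2.2 h.le
      · exact div_nonneg hq.1 h.le
    · simp only [Fin.sum_univ_three, Matrix.cons_val_zero, Matrix.cons_val_one, Matrix.cons_val_two,
        Matrix.head_cons, Matrix.tail_cons]
      have : D b c q / D a b c + D c a q / D a b c + D a b q / D a b c = (D a b q + D b c q + D c a q) / D a b c := by
        ring
      rw [this, hs, div_self h.ne']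
    · intro i _
      fin_cases i
      · exact ha
      · exact hb'
      · exact hc
  refine Bornology.IsBounded.subset ?_ hsub
  rw [isBounded_convexHull]
  exact (Set.toFinite _).isBounded

/-- the linear map with columns `u`, `v` -/
noncomputable def lin (u v : P2) : P2 →ₗ[ℝ] P2 where
  toFun q := q.1 • u + q.2 • v
  map_add' p q := by
    simp only [Prod.fst_add, Prod.snd_add, add_smul]; abel
  map_smul' c q := by
    simp only [Prod.smul_fst, Prod.smul_snd, smul_eq_mul, RingHom.id_apply, smul_add, mul_smul]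

theorem lin_det (u v : P2) : LinearMap.det (lin u v) = u.1 * v.2 - u.2 * v.1 := by
  rw [← LinearMap.det_toMatrix (Module.Basis.finTwoProd ℝ), Matrix.det_fin_two]
  simp [LinearMap.toMatrix_apply, lin]
  ring

theorem tri_volume (a b c : P2) (h : 0 < D a b c) :
    ENNReal.ofReal (D a b c / 4) ≤ volume (Tri a b c) := by
  -- contains the image of [0,1/2]^2
  have hsub : (fun q => a + q) '' (lin (b - a) (c - a) '' (Icc (0:ℝ) (1/2) ×ˢ Icc (0:ℝ) (1/2))) ⊆ Tri a b c := by
    rintro _ ⟨_, ⟨⟨s, t⟩, ⟨hs, ht⟩, rfl⟩, rfl⟩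
    simp only [mem_Icc] at hs ht
    have e1 : D a b (a + lin (b - a) (c - a) (s, t)) = t * D a b c := by
      simp only [D, lin, LinearMap.coe_mk, AddHom.coe_mk, Prod.fst_add, Prod.snd_add, Prod.smul_fst,
        Prod.smul_snd, smul_eq_mul, Prod.fst_sub, Prod.snd_sub]
      ring
    have e2 : D b c (a + lin (b - a) (c - a) (s, t)) = (1 - s - t) * D a b c := by
      simp only [D, lin, LinearMap.coe_mk, AddHom.coe_mk, Prod.fst_add, Prod.snd_add, Prod.smul_fst,
        Prod.smul_snd, smul_eq_mul, Prod.fst_sub, Prod.snd_sub]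
      ring
    have e3 : D c a (a + lin (b - a) (c - a) (s, t)) = s * D a b c := by
      simp only [D, lin, LinearMap.coe_mk, AddHom.coe_mk, Prod.fst_add, Prod.snd_add, Prod.smul_fst,
        Prod.smul_snd, smul_eq_mul, Prod.fst_sub, Prod.snd_sub]
      ring
    refine ⟨?_, ?_, ?_⟩
    · show 0 ≤ D a b _
      rw [e1]; exact mul_nonneg ht.1 h.le
    · show 0 ≤ D b c _
      rw [e2]; exact mul_nonneg (by linarith [hs.2, ht.2]) h.le
    · show 0 ≤ D c a _
      rw [e3]; exact mul_nonneg hs.1 h.le
  refine le_trans ?_ (measure_mono hsub)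
  have hadd : volume ((fun q => a + q) '' (lin (b - a) (c - a) '' (Icc (0:ℝ) (1/2) ×ˢ Icc (0:ℝ) (1/2))))
      = volume (lin (b - a) (c - a) '' (Icc (0:ℝ) (1/2) ×ˢ Icc (0:ℝ) (1/2))) := by
    rw [image_add_left, measure_preimage_add]
  rw [hadd, Measure.addHaar_image_linearMap, lin_det]
  have hD : (b - a).1 * (c - a).2 - (b - a).2 * (c - a).1 = D a b c := by
    simp [D]
  rw [hD, abs_of_pos h]
  have hv : volume (Icc (0:ℝ) (1/2) ×ˢ Icc (0:ℝ) (1/2)) = ENNReal.ofReal (1/4) := by
    rw [Measure.volume_eq_prod, Measure.prod_prod, Real.volume_Icc, ← ENNReal.ofReal_mul (by norm_num)]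
    norm_num
  rw [hv, ← ENNReal.ofReal_mul h.le]
  apply ENNReal.ofReal_le_ofReal
  linarith

end Pool.Agent.H217R3.Beer
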