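import Pool.Agent.H217R3.Beer.Cross
import Pool.Agent.H217R3.Beer.Ana

/-!
Measure-theoretic selection of the points.
-/

set_option autoImplicit false

namespace Pool.Agent.H217R3.Beer

open Set MeasureTheory

theorem D_cont3 : Continuous fun p : P2 × P2 × P2 => D p.1 p.2.1 p.2.2 := by
  unfold D
  fun_prop

theorem meas_bad (z : P2) (η : ℝ) : MeasurableSet {p : P2 × P2 | |D z p.1 p.2| ≤ η} := by
  apply IsClosed.measurableSet
  apply isClosed_le _ continuous_const
  unfold D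
  fun_prop

theorem meas_bad3 (η : ℝ) : MeasurableSet {p : (P2 × P2) × P2 | |D p.1.1 p.1.2 p.2| ≤ η} := by
  apply IsClosed.measurableSet
  apply isClosed_le _ continuous_const
  unfold D
  fun_prop

/-- truncated strip -/
theorem strip (z y : P2) (η : ℝ) (hη : 0 < η) :
    volume {x : P2 | |x.1 - z.1| ≤ |y.1 - z.1| ∧ |D z x y| ≤ η} ≤ ENNReal.ofReal (4 * η) := by
  rcases eq_or_ne y.1 z.1 with h0 | h0
  · have hsub : {x : P2 | |x.1 - z.1| ≤ |y.1 - z.1| ∧ |D z x y| ≤ η} ⊆ ({z.1} : Set ℝ) ×ˢ univ := by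
      intro x hx
      have := hx.1
      rw [h0, sub_self, abs_zero] at this
      have h2 : x.1 - z.1 = 0 := abs_eq_zero.1 (le_antisymm this (abs_nonneg _))
      exact ⟨by simpa using sub_eq_zero.1 h2, mem_univ _⟩
    refine (measure_mono hsub).trans ?_
    rw [Measure.volume_eq_prod, Measure.prod_prod]
    simp
  · have hc : 0 < |y.1 - z.1| := abs_pos.2 (sub_ne_zero.2 h0)
    have hms : MeasurableSet {x : P2 | |x.1 - z.1| ≤ |y.1 - z.1| ∧ |D z x y| ≤ η} := by
      apply IsClosed.measurableSet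
      have c1 : Continuous fun x : P2 => |x.1 - z.1| := by fun_prop
      have c2 : Continuous fun x : P2 => |D z x y| := by unfold D; fun_prop
      exact (isClosed_le c1 continuous_const).inter (isClosed_le c2 continuous_const)
    rw [Measure.volume_eq_prod, Measure.prod_apply hms]
    have hle : ∀ x1 : ℝ, volume (Prod.mk x1 ⁻¹' {x : P2 | |x.1 - z.1| ≤ |y.1 - z.1| ∧ |D z x y| ≤ η}) ≤
        (Metric.closedBall z.1 |y.1 - z.1|).indicator
          (fun _ => ENNReal.ofReal (2 * (η / |y.1 - z.1|))) x1 := by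
      intro x1
      by_cases hx : |x1 - z.1| ≤ |y.1 - z.1|
      · rw [indicator_of_mem (by rw [Metric.mem_closedBall, Real.dist_eq]; exact hx)]
        rw [← Real.volume_closedBall (z.2 + (x1 - z.1) * (y.2 - z.2) / (y.1 - z.1))]
        apply measure_mono
        intro x2 hx2
        have h2 : |D z (x1, x2) y| ≤ η := hx2.2
        rw [Metric.mem_closedBall, Real.dist_eq, le_div_iff₀ hc, ← abs_mul]
        have : (x2 - (z.2 + (x1 - z.1) * (y.2 - z.2) / (y.1 - z.1))) * (y.1 - z.1) = - D z (x1, x2) y := by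
          have h3 : y.1 - z.1 ≠ 0 := sub_ne_zero.2 h0
          simp only [D]
          field_simp
          ring
        rw [this, abs_neg]
        exact h2
      · rw [indicator_of_notMem (by rw [Metric.mem_closedBall, Real.dist_eq]; exact hx)]
        have : (Prod.mk x1 ⁻¹' {x : P2 | |x.1 - z.1| ≤ |y.1 - z.1| ∧ |D z x y| ≤ η}) = ∅ := by
          ext x2
          simp only [mem_preimage, mem_empty_iff_false, iff_false]
          intro h
          exact hx h.1
        rw [this, measure_empty]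
    refine (lintegral_mono hle).trans ?_
    rw [lintegral_indicator Metric.isClosed_closedBall.measurableSet, setLIntegral_const,
      Real.volume_closedBall, ← ENNReal.ofReal_mul (by positivity)]
    apply ENNReal.ofReal_le_ofReal
    have : 2 * (η / |y.1 - z.1|) * (2 * |y.1 - z.1|) = 4 * η := by
      field_simp
      ring
    rw [this]

variable (μ : Measure P2) [IsFiniteMeasure μ] (hμ : μ ≤ volume)

include hμ in
theorem pair_bound (z : P2) (η : ℝ) (hη : 0 < η) :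
    (μ.prod μ) {p : P2 × P2 | |D z p.1 p.2| ≤ η} ≤ ENNReal.ofReal (8 * η) * μ univ := by
  have hsub : {p : P2 × P2 | |D z p.1 p.2| ≤ η} ⊆
      {p : P2 × P2 | |p.1.1 - z.1| ≤ |p.2.1 - z.1| ∧ |D z p.1 p.2| ≤ η} ∪
      {p : P2 × P2 | |p.2.1 - z.1| ≤ |p.1.1 - z.1| ∧ |D z p.1 p.2| ≤ η} := by
    intro p hp
    rcases le_total |p.1.1 - z.1| |p.2.1 - z.1| with h | h
    · exact Or.inl ⟨h, hp⟩
    · exact Or.inr ⟨h, hp⟩
  have hA : (μ.prod μ) {p : P2 × P2 | |p.1.1 - z.1| ≤ |p.2.1 - z.1| ∧ |D z p.1 p.2| ≤ η} ≤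
      ENNReal.ofReal (4 * η) * μ univ := by
    rw [Measure.prod_apply_symm]
    · refine (lintegral_mono (g := fun _ => ENNReal.ofReal (4 * η)) fun y => ?_).trans ?_
      · exact (hμ _).trans (strip z y η hη)
      · rw [lintegral_const]
    · apply IsClosed.measurableSet
      have c1 : Continuous fun p : P2 × P2 => |p.1.1 - z.1| := by fun_prop
      have c1' : Continuous fun p : P2 × P2 => |p.2.1 - z.1| := by fun_prop
      have c2 : Continuous fun p : P2 × P2 => |D z p.1 p.2| := by unfold D; fun_prop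
      exact (isClosed_le c1 c1').inter (isClosed_le c2 continuous_const)
  have hB : (μ.prod μ) {p : P2 × P2 | |p.2.1 - z.1| ≤ |p.1.1 - z.1| ∧ |D z p.1 p.2| ≤ η} ≤
      ENNReal.ofReal (4 * η) * μ univ := by
    rw [Measure.prod_apply]
    · refine (lintegral_mono (g := fun _ => ENNReal.ofReal (4 * η)) fun x => ?_).trans ?_
      · refine (measure_mono ?_).trans ((hμ _).trans (strip z x η hη))
        intro y hy
        refine ⟨hy.1, ?_⟩
        have : |D z x y| ≤ η := hy.2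
        rw [D_swap', abs_neg]
        exact this
      · rw [lintegral_const]
    · apply IsClosed.measurableSet
      have c1 : Continuous fun p : P2 × P2 => |p.1.1 - z.1| := by fun_prop
      have c1' : Continuous fun p : P2 × P2 => |p.2.1 - z.1| := by fun_prop
      have c2 : Continuous fun p : P2 × P2 => |D z p.1 p.2| := by unfold D; fun_prop
      exact (isClosed_le c1' c1).inter (isClosed_le c2 continuous_const)
  refine (measure_mono hsub).trans ((measure_union_le _ _).trans ((add_le_add hA hB).trans ?_))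
  rw [← add_mul, ← ENNReal.ofReal_add (by positivity) (by positivity)]
  apply le_of_eq
  congr 2
  ring

/-- measure of the points close to the line through `x`, `x'` -/
noncomputable def bet (η : ℝ) (x x' : P2) : ENNReal := μ {y | |D x x' y| ≤ η}

theorem meas_bet (η : ℝ) : Measurable fun p : P2 × P2 => bet μ η p.1 p.2 :=
  measurable_measure_prodMk_left (meas_bad3 η)

theorem meas_bet' (η : ℝ) (x : P2) : Measurable fun p : P2 => bet μ η x p :=
  (meas_bet μ η).comp (measurable_const.prodMk measurable_id)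

include hμ in
theorem int_bet (η : ℝ) (hη : 0 < η) (z : P2) :
    ∫⁻ x, bet μ η z x ∂μ ≤ ENNReal.ofReal (8 * η) * μ univ := by
  have := pair_bound μ hμ z η hη
  rw [Measure.prod_apply (meas_bad z η)] at this
  exact this

/-- the common neighbourhood -/
noncomputable def com (G : Set (P2 × P2)) (x1 x2 x3 : P2) : ENNReal :=
  ∫⁻ y, (G.indicator 1 (x1, y) : ENNReal) * G.indicator 1 (x2, y) * G.indicator 1 (x3, y) ∂μ

theorem swap1 (G : Set (P2 × P2)) (hG : MeasurableSet G) (w : P2 → ENNReal) (hw : Measurable w) :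
    ∫⁻ x, ∫⁻ y, w y * G.indicator 1 (x, y) ∂μ ∂μ = ∫⁻ y, w y * μ {x | (x, y) ∈ G} ∂μ := by
  have hmi : Measurable (G.indicator (1 : P2 × P2 → ENNReal)) := measurable_one.indicator hG
  rw [lintegral_lintegral_swap]
  · refine lintegral_congr fun y => ?_
    rw [lintegral_const_mul]
    · congr 1
      have : (fun x => G.indicator (1 : P2 × P2 → ENNReal) (x, y)) = {x | (x, y) ∈ G}.indicator 1 := by
        ext x
        by_cases h : (x, y) ∈ G
        · rw [indicator_of_mem h, indicator_of_mem (s := {x | (x, y) ∈ G}) h]; rfl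
        · rw [indicator_of_notMem h, indicator_of_notMem (s := {x | (x, y) ∈ G}) h]
      rw [this, lintegral_indicator_one]
      exact measurable_prodMk_right hG
    · exact hmi.comp (measurable_id.prodMk measurable_const)
  · apply Measurable.aemeasurable
    exact (hw.comp measurable_snd).mul (hmi.comp (measurable_fst.prodMk measurable_snd))

theorem triple_int (G : Set (P2 × P2)) (hG : MeasurableSet G) :
    ∫⁻ x1, ∫⁻ x2, ∫⁻ x3, com μ G x1 x2 x3 ∂μ ∂μ ∂μ = ∫⁻ y, (μ {x | (x, y) ∈ G}) ^ 3 ∂μ := by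
  have hmi : Measurable (G.indicator (1 : P2 × P2 → ENNReal)) := measurable_one.indicator hG
  have hmi' : ∀ x, Measurable fun y => G.indicator (1 : P2 × P2 → ENNReal) (x, y) := fun x =>
    hmi.comp (measurable_const.prodMk measurable_id)
  have hd : Measurable fun y => μ {x | (x, y) ∈ G} := measurable_measure_prodMk_right hG
  have h3 : ∀ x1 x2, ∫⁻ x3, com μ G x1 x2 x3 ∂μ =
      ∫⁻ y, (G.indicator 1 (x1, y) * μ {x | (x, y) ∈ G}) * G.indicator 1 (x2, y) ∂μ := by
    intro x1 x2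
    unfold com
    refine (swap1 μ G hG (fun y => (G.indicator 1 (x1, y) : ENNReal) * G.indicator 1 (x2, y))
      ((hmi' x1).mul (hmi' x2))).trans ?_
    refine lintegral_congr fun y => ?_
    ring
  have h2 : ∀ x1, ∫⁻ x2, ∫⁻ x3, com μ G x1 x2 x3 ∂μ ∂μ =
      ∫⁻ y, (μ {x | (x, y) ∈ G}) ^ 2 * G.indicator 1 (x1, y) ∂μ := by
    intro x1
    simp_rw [h3]
    refine (swap1 μ G hG (fun y => (G.indicator 1 (x1, y) : ENNReal) * μ {x | (x, y) ∈ G})
      ((hmi' x1).mul hd)).trans ?_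
    refine lintegral_congr fun y => ?_
    ring
  simp_rw [h2]
  refine (swap1 μ G hG (fun y => (μ {x | (x, y) ∈ G}) ^ 2) (hd.pow_const 2)).trans ?_
  refine lintegral_congr fun y => ?_
  ring

theorem tangent (a d : ENNReal) (ha : a ≠ ⊤) : 3 * a ^ 2 * d ≤ d ^ 3 + 2 * a ^ 3 := by
  rcases eq_or_ne d ⊤ with rfl | hd
  · simp
  lift a to NNReal using ha
  lift d to NNReal using hd
  norm_cast
  rw [← NNReal.coe_le_coe]
  push_cast
  nlinarith [mul_nonneg (add_nonneg d.coe_nonneg (mul_nonneg zero_le_two a.coe_nonneg))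
    (sq_nonneg ((d : ℝ) - a))]

theorem jensen (G : Set (P2 × P2)) (hG : MeasurableSet G) (a : ENNReal) (ha : a ≠ ⊤)
    (h : a * μ univ ≤ (μ.prod μ) G) :
    a ^ 3 * μ univ ≤ ∫⁻ y, (μ {x | (x, y) ∈ G}) ^ 3 ∂μ := by
  have hd : Measurable fun y => μ {x | (x, y) ∈ G} := measurable_measure_prodMk_right hG
  have h1 : (μ.prod μ) G = ∫⁻ y, μ {x | (x, y) ∈ G} ∂μ := by
    rw [Measure.prod_apply_symm hG]; rfl
  have h2 : 3 * a ^ 2 * ∫⁻ y, μ {x | (x, y) ∈ G} ∂μ ≤
      ∫⁻ y, (μ {x | (x, y) ∈ G}) ^ 3 ∂μ + 2 * a ^ 3 * μ univ := by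
    rw [← lintegral_const_mul _ hd, ← lintegral_const, ← lintegral_add_left (hd.pow_const 3)]
    exact lintegral_mono fun y => tangent a _ ha
  rw [← h1] at h2
  have h3 : 3 * a ^ 2 * (a * μ univ) ≤
      ∫⁻ y, (μ {x | (x, y) ∈ G}) ^ 3 ∂μ + 2 * a ^ 3 * μ univ :=
    (mul_le_mul_right h _).trans h2
  have h4 : 3 * a ^ 2 * (a * μ univ) = a ^ 3 * μ univ + 2 * a ^ 3 * μ univ := by ring
  rw [h4] at h3
  exact (ENNReal.add_le_add_iff_right
    (ENNReal.mul_ne_top (ENNReal.mul_ne_top (by norm_num) (ENNReal.pow_ne_top ha))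
      (measure_ne_top μ _))).1 h3

include hμ in
/-- selection of the three red points -/
theorem select3 (G : Set (P2 × P2)) (hG : MeasurableSet G) (η : ℝ) (hη : 0 < η) (t : ENNReal)
    (h : (3 * (ENNReal.ofReal (8 * η) * μ univ) + t * μ univ) * (μ univ) ^ 2 <
      ∫⁻ y, (μ {x | (x, y) ∈ G}) ^ 3 ∂μ) :
    ∃ x1 x2 x3, bet μ η x1 x2 + bet μ η x1 x3 + bet μ η x2 x3 + t < com μ G x1 x2 x3 := by
  by_contra hcon
  push Not at hcon
  apply h.not_ge
  rw [← triple_int μ G hG]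
  obtain ⟨κ, hκ⟩ : ∃ κ, κ = ENNReal.ofReal (8 * η) * μ univ := ⟨_, rfl⟩
  rw [← hκ]
  have hb : ∀ z, ∫⁻ x, bet μ η z x ∂μ ≤ κ := by
    intro z; rw [hκ]; exact int_bet μ hμ η hη z
  have s3 : ∀ x1 x2, ∫⁻ x3, com μ G x1 x2 x3 ∂μ ≤ bet μ η x1 x2 * μ univ + (2 * κ + t * μ univ) := by
    intro x1 x2
    refine (lintegral_mono fun x3 => hcon x1 x2 x3).trans ?_
    rw [lintegral_add_right _ measurable_const, lintegral_const,
      lintegral_add_right _ (meas_bet' μ η x2), lintegral_add_left measurable_const, lintegral_const]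
    calc bet μ η x1 x2 * μ univ + ∫⁻ x3, bet μ η x1 x3 ∂μ + ∫⁻ x3, bet μ η x2 x3 ∂μ + t * μ univ
        ≤ bet μ η x1 x2 * μ univ + κ + κ + t * μ univ := by gcongr <;> apply hb
      _ = _ := by ring
  have s2 : ∀ x1, ∫⁻ x2, ∫⁻ x3, com μ G x1 x2 x3 ∂μ ∂μ ≤ (3 * κ + t * μ univ) * μ univ := by
    intro x1
    refine (lintegral_mono fun x2 => s3 x1 x2).trans ?_
    rw [lintegral_add_right _ measurable_const, lintegral_const, lintegral_mul_const _ (meas_bet' μ η x1)]
    calc (∫⁻ x2, bet μ η x1 x2 ∂μ) * μ univ + (2 * κ + t * μ univ) * μ univ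
        ≤ κ * μ univ + (2 * κ + t * μ univ) * μ univ := by gcongr; apply hb
      _ = _ := by ring
  refine (lintegral_mono fun x1 => s2 x1).trans ?_
  rw [lintegral_const]
  apply le_of_eq
  ring

omit [IsFiniteMeasure μ] in
theorem pig (t : ENNReal) (Y A B : Set P2) (h : t < μ Y) (hY : Y ⊆ A ∪ B) :
    t / 2 < μ (Y ∩ A) ∨ t / 2 < μ (Y ∩ B) := by
  by_contra hcon
  push Not at hcon
  have : μ Y ≤ μ (Y ∩ A) + μ (Y ∩ B) := by
    refine (measure_mono ?_).trans (measure_union_le _ _)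
    intro y hy
    rcases hY hy with h | h
    · exact Or.inl ⟨hy, h⟩
    · exact Or.inr ⟨hy, h⟩
  have h2 := this.trans (add_le_add hcon.1 hcon.2)
  rw [ENNReal.add_halves] at h2
  exact h.not_ge h2

omit [IsFiniteMeasure μ] in
theorem pigSS (t : ENNReal) (η : ℝ) (Y : Set P2) (g : P2 → ℝ) (h : t < μ Y) (hY : ∀ y ∈ Y, η < |g y|) :
    ∃ Y' ⊆ Y, t / 2 < μ Y' ∧ ∀ y ∈ Y', ∀ y' ∈ Y', SS η (g y) (g y') := by
  rcases pig μ t Y {y | η < g y} {y | g y < -η} h (fun y hy => (lt_abs_iff' _ _).1 (hY y hy)) with h1 | h1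
  · exact ⟨_, inter_subset_left, h1, fun y hy y' hy' => Or.inl ⟨hy.2, hy'.2⟩⟩
  · exact ⟨_, inter_subset_left, h1, fun y hy y' hy' => Or.inr ⟨hy.2, hy'.2⟩⟩

include hμ in
/-- selection of the two blue points -/
theorem select2 (Y : Set P2) (η : ℝ) (hη : 0 < η) (x1 x2 x3 : P2)
    (h : 3 * (ENNReal.ofReal (8 * η) * μ univ) < μ Y * μ Y) :
    ∃ b ∈ Y, ∃ b' ∈ Y, η < |D x1 b b'| ∧ η < |D x2 b b'| ∧ η < |D x3 b b'| := by
  by_contra hcon
  push Not at hcon
  apply h.not_ge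
  rw [← Measure.prod_prod]
  have hsub : Y ×ˢ Y ⊆ {p : P2 × P2 | |D x1 p.1 p.2| ≤ η} ∪ ({p : P2 × P2 | |D x2 p.1 p.2| ≤ η} ∪
      {p : P2 × P2 | |D x3 p.1 p.2| ≤ η}) := by
    rintro ⟨b, b'⟩ ⟨hb, hb'⟩
    by_cases h1 : |D x1 b b'| ≤ η
    · exact Or.inl h1
    by_cases h2 : |D x2 b b'| ≤ η
    · exact Or.inr (Or.inl h2)
    · exact Or.inr (Or.inr (hcon b hb b' hb' (not_le.1 h1) (not_le.1 h2)))
  refine (measure_mono hsub).trans ((measure_union_le _ _).trans
    ((add_le_add (pair_bound μ hμ x1 η hη) ((measure_union_le _ _).trans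
      (add_le_add (pair_bound μ hμ x2 η hη) (pair_bound μ hμ x3 η hη)))).trans ?_))
  apply le_of_eq
  ring

include hμ in
theorem select (S : Set P2) (G : Set (P2 × P2)) (hG : MeasurableSet G)
    (hGS : ∀ p ∈ G, segment ℝ p.1 p.2 ⊆ S) (η : ℝ) (hη : 0 < η)
    (t : ENNReal)
    (h : (3 * (ENNReal.ofReal (8 * η) * μ univ) + t * μ univ) * (μ univ) ^ 2 <
      ∫⁻ y, (μ {x | (x, y) ∈ G}) ^ 3 ∂μ)
    (h2 : 3 * (ENNReal.ofReal (8 * η) * μ univ) ≤ (t / 2 / 2 / 2) * (t / 2 / 2 / 2)) :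
    Good S (η / 8) := by
  obtain ⟨x1, x2, x3, hx⟩ := select3 μ hμ G hG η hη t h
  obtain ⟨Y, hY⟩ : ∃ Y : Set P2, Y = {y | ((x1, y) ∈ G ∧ (x2, y) ∈ G ∧ (x3, y) ∈ G) ∧
    (η < |D x1 x2 y| ∧ η < |D x1 x3 y| ∧ η < |D x2 x3 y|)} := ⟨_, rfl⟩
  have hcom : com μ G x1 x2 x3 ≤ μ {y | (x1, y) ∈ G ∧ (x2, y) ∈ G ∧ (x3, y) ∈ G} := by
    unfold com
    rw [← lintegral_indicator_one]
    · refine lintegral_mono fun y => ?_
      by_cases h1 : (x1, y) ∈ G
      · by_cases h2 : (x2, y) ∈ G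
        · by_cases h3 : (x3, y) ∈ G
          · simp [h1, h2, h3]
          · simp [h3]
        · simp [h2]
      · simp [h1]
    · exact (measurable_prodMk_left hG).inter ((measurable_prodMk_left hG).inter (measurable_prodMk_left hG))
  have hYt : t < μ Y := by
    have hsub : {y | (x1, y) ∈ G ∧ (x2, y) ∈ G ∧ (x3, y) ∈ G} ⊆
        Y ∪ ({y | |D x1 x2 y| ≤ η} ∪ ({y | |D x1 x3 y| ≤ η} ∪ {y | |D x2 x3 y| ≤ η})) := by
      intro y hy
      by_cases h1 : |D x1 x2 y| ≤ η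
      · exact Or.inr (Or.inl h1)
      by_cases h2 : |D x1 x3 y| ≤ η
      · exact Or.inr (Or.inr (Or.inl h2))
      by_cases h3 : |D x2 x3 y| ≤ η
      · exact Or.inr (Or.inr (Or.inr h3))
      left
      rw [hY]
      exact ⟨hy, not_le.1 h1, not_le.1 h2, not_le.1 h3⟩
    have h1 : com μ G x1 x2 x3 ≤ μ Y + (bet μ η x1 x2 + (bet μ η x1 x3 + bet μ η x2 x3)) := by
      refine hcom.trans ((measure_mono hsub).trans ((measure_union_le _ _).trans ?_))
      gcongr
      refine (measure_union_le _ _).trans ?_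
      unfold bet
      gcongr
      exact measure_union_le _ _
    have h2 := hx.trans_le h1
    have e1 : bet μ η x1 x2 + bet μ η x1 x3 + bet μ η x2 x3 + t =
        t + (bet μ η x1 x2 + (bet μ η x1 x3 + bet μ η x2 x3)) := by ring
    rw [e1] at h2
    refine (ENNReal.add_lt_add_iff_right ?_).1 h2
    exact ENNReal.add_ne_top.2 ⟨measure_ne_top μ _, ENNReal.add_ne_top.2 ⟨measure_ne_top μ _, measure_ne_top μ _⟩⟩
  obtain ⟨Y1, hY1, ht1, hs1⟩ := pigSS μ t η Y (fun y => D x1 x2 y) hYt (by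
    intro y hy; rw [hY] at hy; exact hy.2.1)
  obtain ⟨Y2, hY2, ht2, hs2⟩ := pigSS μ (t / 2) η Y1 (fun y => D x1 x3 y) ht1 (by
    intro y hy; have := hY1 hy; rw [hY] at this; exact this.2.2.1)
  obtain ⟨Y3, hY3, ht3, hs3⟩ := pigSS μ (t / 2 / 2) η Y2 (fun y => D x2 x3 y) ht2 (by
    intro y hy; have := hY1 (hY2 hy); rw [hY] at this; exact this.2.2.2)
  obtain ⟨b, hb, b', hb', k1, k2, k3⟩ := select2 μ hμ Y3 η hη x1 x2 x3
    (h2.trans_lt (ENNReal.mul_lt_mul ht3 ht3))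
  have hbY := hY1 (hY2 (hY3 hb))
  have hbY' := hY1 (hY2 (hY3 hb'))
  rw [hY] at hbY hbY'
  exact cross3 S x1 x2 x3 b b' η hη (hs1 b (hY2 (hY3 hb)) b' (hY2 (hY3 hb')))
    (hs2 b (hY3 hb) b' (hY3 hb')) (hs3 b hb b' hb') k1 k2 k3
    (hGS _ hbY.1.1) (hGS _ hbY'.1.1) (hGS _ hbY.1.2.1) (hGS _ hbY'.1.2.1)
    (hGS _ hbY.1.2.2) (hGS _ hbY'.1.2.2)

end Pool.Agent.H217R3.Beer
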